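import Pool.Agent.Results.MP_c130e3_pr.Entropy

set_option autoImplicit false

namespace Pool.Agent.Results.MP_d87a8f_pr.Dihedral

open Finset Filter Topology Matrix

noncomputable section

/-- Entropy of the Poisson law with mean `s`. -/
def H (s : ℝ) : ℝ := ∑' j : ℕ, Real.negMulLog (Real.exp (-s) * (s ^ j / j.factorial))

/-- Entropic time: the first time `t` at which `k H(t/k)` reaches `log N`. -/
def t0 (k N : ℕ) : ℝ := sInf {t : ℝ | 0 ≤ t ∧ Real.log N ≤ k * H (t / k)}

section
variable {G : Type} [Group G] [Fintype G] [DecidableEq G] {k : ℕ}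

/-- Jump matrix of the walk on the directed Cayley multigraph with generators `Z`. -/
def J (Z : Fin k → G) : Matrix G G ℝ := fun x y => ((univ.filter fun i => x * Z i = y).card : ℝ) / k

/-- Total variation distance to uniform at time `t` of the rate one walk from the identity. -/
def d (Z : Fin k → G) (t : ℝ) : ℝ :=
  (1 / 2) * ∑ y, |NormedSpace.exp (t • (J Z - 1)) 1 y - 1 / (Fintype.card G : ℝ)|

variable (G k) in
/-- The conjectured cutoff time. -/
def tstar : ℝ := max (t0 k (Nat.card (Abelianization G))) (Real.logb k (Fintype.card G))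
end

open MP_ec2323_pr.NoCutoff (wt wt0 wt_sum exp_sum)
open MP_c130e3_pr.Entropy (wt_one wt_mean)

lemma H_ge {s : ℝ} (h : 0 < s) : s * Real.exp (-s) ≤ H s := by
  have p : ∀ j, 0 < wt s j := fun j => by unfold wt; positivity
  have p1 : ∀ j, wt s j ≤ 1 := fun j => le_hasSum (wt_one s) j fun i _ => (p i).le
  have n : ∀ j, 0 ≤ Real.negMulLog (wt s j) := fun j => Real.negMulLog_nonneg (p j).le (p1 j)
  have S : Summable fun j => Real.negMulLog (wt s j) := by
    refine Summable.of_nonneg_of_le n (fun j => ?_)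
      ((wt_sum s 4).summable.mul_right (s + |Real.log s| + 1))
    rw [Real.negMulLog, neg_mul_comm, mul_assoc]
    refine mul_le_mul_of_nonneg_left ?_ (p j).le
    have a : (j : ℝ) ≤ 2 ^ j := by exact_mod_cast Nat.lt_two_pow_self.le
    have a2 : (j : ℝ) * j ≤ 4 ^ j := by
      rw [show (4 : ℝ) = 2 * 2 by norm_num, mul_pow]; gcongr
    have a1 : (j : ℝ) ≤ 4 ^ j := a.trans (by gcongr; norm_num)
    have a0 : (1 : ℝ) ≤ 4 ^ j := one_le_pow₀ (by norm_num)
    have b : Real.log j.factorial ≤ j * j := by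
      refine (Real.log_le_log (by positivity) (show (j.factorial : ℝ) ≤ j ^ j by
        exact_mod_cast j.factorial_le_pow)).trans ?_
      rw [Real.log_pow]
      exact mul_le_mul_of_nonneg_left (Real.log_le_self (by positivity)) (by positivity)
    rw [wt, Real.log_mul (by positivity) (by positivity), Real.log_exp,
      Real.log_div (by positivity) (by positivity), Real.log_pow]
    nlinarith [neg_abs_le (Real.log s), abs_nonneg (Real.log s), (Nat.cast_nonneg j : (0 : ℝ) ≤ j),
      mul_le_mul_of_nonneg_left (neg_abs_le (Real.log s)) (Nat.cast_nonneg j : (0 : ℝ) ≤ j),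
      mul_le_mul_of_nonneg_right a1 (abs_nonneg (Real.log s))]
  refine le_trans (le_of_eq ?_) (S.le_tsum 0 fun j _ => n j)
  simp [wt, Real.negMulLog, mul_comm]

lemma t0_le {k N : ℕ} (hk : 10 ≤ k) (hN : N ≤ 4) : t0 k N ≤ 2 := by
  have k0 : (10 : ℝ) ≤ k := by exact_mod_cast hk
  refine csInf_le ⟨0, fun _ h => h.1⟩ ⟨by norm_num, ?_⟩
  have a := mul_le_mul_of_nonneg_left (H_ge (s := 2 / k) (by positivity)) (by positivity : (0 : ℝ) ≤ k)
  have b := Real.add_one_le_exp (-(2 / k : ℝ))
  have c : (2 : ℝ) / k ≤ 1 / 5 := by rw [div_le_iff₀ (by positivity)]; linarith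
  have e : Real.log N ≤ Real.log (2 ^ 2) := by
    rcases N.eq_zero_or_pos with rfl | h
    · simp; positivity
    · exact Real.log_le_log (by positivity) (by exact_mod_cast hN)
  rw [← mul_assoc, mul_div_cancel₀ _ (by positivity)] at a
  rw [Real.log_pow] at e
  push_cast at e
  linarith [Real.log_two_lt_d9]

open DihedralGroup

lemma ab_le (N : ℕ) [NeZero N] : Nat.card (Abelianization (DihedralGroup N)) ≤ 4 := by
  have a : ∀ i : ZMod N, Abelianization.of (r i) = 1 ∨
      Abelianization.of (r i) = Abelianization.of (r (1 : ZMod N)) := fun i => by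
    have e : Abelianization.of (r (1 : ZMod N)) ^ 2 = 1 := by
      have : (r 1 * sr 0 * (r 1 * sr 0) : DihedralGroup N) = sr 0 * sr 0 := by simp
      have := congrArg Abelianization.of this
      simp only [map_mul] at this
      rwa [mul_mul_mul_comm, mul_eq_right, ← sq] at this
    rw [← ZMod.natCast_zmod_val i, ← r_one_pow, map_pow, pow_eq_pow_mod _ e]
    rcases Nat.mod_two_eq_zero_or_one i.val with h | h <;> simp [h]
  refine (Nat.card_le_card_of_surjective (fun z : Bool × Bool => Abelianization.of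
    ((if z.1 then sr 0 else 1) * if z.2 then r (1 : ZMod N) else 1)) fun g => ?_).trans (by simp)
  obtain ⟨g, rfl⟩ : ∃ x, Abelianization.of x = g := QuotientGroup.mk_surjective g
  obtain i | i := g
  · rcases a i with h | h
    exacts [⟨(false, false), by simp [h]⟩, ⟨(false, true), by simp [h]⟩]
  · have e : (sr i : DihedralGroup N) = sr 0 * r i := by simp
    rw [e, map_mul]
    rcases a i with h | h
    exacts [⟨(true, false), by simp [h]⟩, ⟨(true, true), by rw [h, ← map_mul]; simp⟩]

variable {N k : ℕ} [NeZero N] (Z : Fin k → DihedralGroup N)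

def ix : DihedralGroup N → ZMod N
  | r i => i
  | sr i => i

def vl : Option (Fin k × Bool) → ZMod N
  | none => 0
  | some (i, b) => if b then ix (Z i) else -ix (Z i)

def B (T : ℕ) : Finset (ZMod N) :=
  univ.image fun s : Sym (Option (Fin k × Bool)) T => (s.1.map (vl Z)).sum

lemma B_cons {T : ℕ} {x : ZMod N} (h : x ∈ B Z T) (o : Option (Fin k × Bool)) :
    vl Z o + x ∈ B Z (T + 1) := by
  obtain ⟨s, -, rfl⟩ := mem_image.1 h
  exact mem_image.2 ⟨o ::ₛ s, mem_univ _, by simp [Sym.coe_cons]⟩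

lemma B_neg {T : ℕ} {x : ZMod N} (h : x ∈ B Z T) : -x ∈ B Z T := by
  obtain ⟨s, -, rfl⟩ := mem_image.1 h
  refine mem_image.2 ⟨s.map (Option.map fun z => (z.1, !z.2)), mem_univ _, ?_⟩
  rw [← Multiset.sum_map_neg]
  simp only [Sym.val_eq_coe, Sym.coe_map, Multiset.map_map]
  congr 2
  ext (_ | ⟨i, _ | _⟩) <;> simp [vl]

lemma B_mono : Monotone (B Z) := monotone_nat_of_le_succ fun T x h => by
  simpa [vl] using B_cons Z h none

lemma J0 (j : ℕ) (x y : DihedralGroup N) : 0 ≤ (J Z ^ j) x y := by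
  induction j generalizing y with
  | zero => simp only [pow_zero, one_apply]; split_ifs <;> norm_num
  | succ j ih =>
    rw [pow_succ, mul_apply]; exact sum_nonneg fun z _ => mul_nonneg (ih z) (by unfold J; positivity)

lemma J1 (hk : 0 < k) (j : ℕ) (x : DihedralGroup N) : ∑ y, (J Z ^ j) x y = 1 := by
  have a : ∀ x, ∑ y, J Z x y = 1 := fun x => by
    simp only [J, ← sum_div]
    rw [← Nat.cast_sum, ← card_eq_sum_card_fiberwise fun i _ => mem_univ _]
    simp [hk.ne']
  induction j with
  | zero => simp [one_apply]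
  | succ j ih => simp only [pow_succ, mul_apply]; rw [sum_comm]; simp only [← mul_sum, a, mul_one, ih]

lemma supp (j : ℕ) : ∀ y, (J Z ^ j) 1 y ≠ 0 → ix y ∈ B Z j := by
  induction j with
  | zero =>
    intro y h
    obtain rfl : 1 = y := by_contra fun e => h (one_apply_ne e)
    exact mem_image.2 ⟨Sym.nil, mem_univ _, rfl⟩
  | succ j ih =>
    intro y h
    rw [pow_succ, mul_apply] at h
    obtain ⟨x, -, hx⟩ := exists_ne_zero_of_sum_ne_zero h
    have a := ih x (left_ne_zero_of_mul hx)
    obtain ⟨i, hi⟩ : ∃ i, x * Z i = y := by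
      by_contra! e
      exact right_ne_zero_of_mul hx (by simp [J, e])
    have b1 := B_cons Z a (some (i, true))
    have b2 := B_cons Z (B_neg Z a) (some (i, true))
    simp only [vl, if_true] at b1 b2
    subst hi
    generalize Z i = z at b1 b2 ⊢
    cases x <;> cases z <;> simp only [ix, r_mul_r, r_mul_sr, sr_mul_r, sr_mul_sr] at b1 b2 ⊢ <;>
      first | exact add_comm (G := ZMod N) _ _ ▸ b1 | rwa [sub_eq_add_neg]

lemma d_low (hk : 0 < k) {t : ℝ} (ht : 0 ≤ t) {T : ℕ} (hT : 0 < T) :
    1 - t / T - ((2 * k + T).choose T : ℝ) / N ≤ d Z t := by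
  have hs := fun y => exp_sum (J Z) t 1 y
  have s1 : ∑ y, NormedSpace.exp (t • (J Z - 1)) 1 y = 1 := by
    have a := hasSum_sum (s := univ) fun y _ => hs y
    simp only [← mul_sum, J1 Z hk, mul_one] at a
    exact a.unique (wt_one t)
  let A : Finset (DihedralGroup N) := univ.filter fun y => ix y ∈ B Z T
  have cA : A.card ≤ 2 * (2 * k + T).choose T := by
    have a : A ⊆ (B Z T).image r ∪ (B Z T).image sr := by
      rintro (i | i) h <;> simpa [A, ix] using h
    have b : (B Z T).card ≤ (2 * k + T).choose T := card_image_le.trans (by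
      rw [card_univ, Sym.card_sym_eq_choose]
      simp only [Fintype.card_option, Fintype.card_prod, Fintype.card_fin, Fintype.card_bool]
      exact le_of_eq (by congr 1; omega))
    have := card_union_le ((B Z T).image r) ((B Z T).image sr)
    have := card_image_le (s := B Z T) (f := r)
    have := card_image_le (s := B Z T) (f := sr)
    have := card_le_card a
    omega
  have c : (A.card : ℝ) / Fintype.card (DihedralGroup N) ≤ ((2 * k + T).choose T : ℝ) / N := by
    have : (0 : ℝ) < N := by exact_mod_cast NeZero.pos N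
    rw [DihedralGroup.card, div_le_div_iff₀ (by push_cast; linarith) this]
    have : (A.card : ℝ) ≤ 2 * (2 * k + T).choose T := by exact_mod_cast cA
    push_cast
    nlinarith
  have T1 : (0 : ℝ) < T := by exact_mod_cast hT
  have f := hasSum_le (fun j => ?_) ((wt_one t).sub ((wt_mean t).div_const T))
    (hasSum_sum (s := A) fun y _ => hs y)
  · have e1 := sum_add_sum_compl A fun y => |NormedSpace.exp (t • (J Z - 1)) 1 y -
      1 / (Fintype.card (DihedralGroup N) : ℝ)|
    have e2 := sum_add_sum_compl A fun y => NormedSpace.exp (t • (J Z - 1)) 1 y -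
      1 / (Fintype.card (DihedralGroup N) : ℝ)
    have e3 := sum_le_sum (s := A) fun y _ => le_abs_self (NormedSpace.exp (t • (J Z - 1)) 1 y -
      1 / (Fintype.card (DihedralGroup N) : ℝ))
    have e4 := sum_le_sum (s := Aᶜ) fun y _ => neg_le_abs (NormedSpace.exp (t • (J Z - 1)) 1 y -
      1 / (Fintype.card (DihedralGroup N) : ℝ))
    rw [sum_neg_distrib] at e4
    rw [sum_sub_distrib (s := univ), s1, sum_const, card_univ, nsmul_eq_mul,
      mul_one_div_cancel (by positivity)] at e2
    rw [sum_sub_distrib, sum_const, nsmul_eq_mul, mul_one_div] at e2 e3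
    rw [d]
    linarith
  rw [← mul_sum, mul_div_assoc, ← mul_one_sub]
  refine mul_le_mul_of_nonneg_left ?_ (wt0 ht j)
  rcases le_or_gt j T with hj | hj
  · rw [sum_subset (subset_univ A) fun y _ hy => by_contra fun e =>
      hy (mem_filter.2 ⟨mem_univ _, B_mono Z hj (supp Z j y e)⟩), J1 Z hk]
    exact sub_le_self _ (by positivity)
  · refine le_trans ?_ (sum_nonneg fun _ _ => J0 Z _ _ _)
    rw [sub_nonpos, le_div_iff₀ T1, one_mul]
    exact_mod_cast hj.le

lemma ch (n T : ℕ) {c : ℝ} (h : 3 * n ≤ c * T) : (n.choose T : ℝ) ≤ c ^ T := by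
  rcases T.eq_zero_or_pos with rfl | hT
  · simp
  have a : (n.choose T : ℝ) ≤ n ^ T / T.factorial := Nat.choose_le_pow_div T n
  have b := Real.pow_div_factorial_le_exp (T : ℝ) (by positivity) T
  have e : Real.exp T ≤ 3 ^ T := by
    rw [← mul_one (T : ℝ), Real.exp_nat_mul]
    exact pow_le_pow_left₀ (by positivity) (by linarith [Real.exp_one_lt_d9]) _
  have f : (3 * n : ℝ) ^ T ≤ (c * T) ^ T := by gcongr
  have T0 : (0 : ℝ) < (T : ℝ) ^ T := by positivity
  have g := b.trans e
  rw [div_le_iff₀ (by positivity)] at g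
  refine a.trans ?_
  rw [div_le_iff₀ (by positivity)]
  rw [mul_pow, mul_pow] at f
  refine le_of_mul_le_mul_right ?_ T0
  have c0 : 0 ≤ c ^ T := pow_nonneg (nonneg_of_mul_nonneg_left (le_trans (by positivity) h)
    (by positivity)) _
  calc _ ≤ (n : ℝ) ^ T * (3 ^ T * T.factorial) := by gcongr
    _ = 3 ^ T * n ^ T * T.factorial := by ring
    _ ≤ c ^ T * T ^ T * T.factorial := by gcongr
    _ = _ := by ring

def LL (j : ℕ) : ℕ := 32 * (j + 1) * 2 ^ (31 * (j + 1))
abbrev GG (j : ℕ) := DihedralGroup (2 ^ (LL j - 1))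
def kk (j : ℕ) : ℕ := 2 ^ (32 * (j + 1))

lemma LL1 (j : ℕ) : 32 ≤ LL j := by
  have := Nat.two_pow_pos (31 * (j + 1))
  unfold LL; nlinarith

lemma cG (j : ℕ) : Fintype.card (GG j) = 2 ^ LL j := by
  rw [DihedralGroup.card, ← pow_succ', Nat.sub_add_cancel (by have := LL1 j; omega)]

lemma lG (j : ℕ) : Real.log (Fintype.card (GG j)) = 2 ^ (31 * (j + 1)) * Real.log (kk j) := by
  rw [cG, kk, LL]; push_cast; simp only [Real.log_pow]; push_cast; ring

lemma lk (j : ℕ) : Real.log (kk j) = 32 * (j + 1) * Real.log 2 := by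
  rw [kk]; push_cast; simp only [Real.log_pow]; push_cast; ring

lemma ts (j : ℕ) : tstar (GG j) (kk j) = 2 ^ (31 * (j + 1)) := by
  have : 0 < Real.log (kk j) := by rw [lk]; positivity
  rw [tstar, Real.logb, lG, mul_div_cancel_right₀ _ this.ne']
  exact max_eq_right ((t0_le ((by norm_num : 10 ≤ 2 ^ 4).trans (Nat.pow_le_pow_right (by norm_num)
    (by omega))) (ab_le _)).trans (le_self_pow₀ (by norm_num) (by omega)))

lemma main (j : ℕ) (Z : Fin (kk j) → GG j) : 1 / 2 ≤ d Z ((1 + 1) * tstar (GG j) (kk j)) := by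
  refine le_trans ?_ (d_low Z (Nat.two_pow_pos _) (by rw [ts]; positivity)
    (T := 8 * 2 ^ (31 * (j + 1))) (by positivity))
  have a := ch (2 * kk j + 8 * 2 ^ (31 * (j + 1))) (8 * 2 ^ (31 * (j + 1))) (c := 8 ^ (j + 1)) (by
    have e : (2 : ℝ) ≤ 2 ^ (j + 1) := le_self_pow₀ (by norm_num) (by omega)
    rw [kk, show 32 * (j + 1) = j + 1 + 31 * (j + 1) by ring, show (8 : ℝ) ^ (j + 1) = (2 ^ (j + 1)) ^ 3 by
      rw [← pow_mul, mul_comm, pow_mul]; norm_num]
    push_cast
    rw [pow_add (2 : ℝ) (j + 1)]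
    generalize (2 : ℝ) ^ (j + 1) = u at e ⊢
    have : (0 : ℝ) < 2 ^ (31 * (j + 1)) := by positivity
    nlinarith [mul_le_mul_of_nonneg_right (show 3 * (2 * u + 8) ≤ u ^ 3 * 8
      by nlinarith [mul_le_mul e e (by norm_num) (by linarith)]) this.le])
  have b : ((8 : ℝ) ^ (j + 1)) ^ (8 * 2 ^ (31 * (j + 1))) * 4 ≤ (2 ^ (LL j - 1) : ℕ) := by
    have := LL1 j
    rw [show (4 : ℝ) = 2 ^ 2 by norm_num, show (8 : ℝ) = 2 ^ 3 by norm_num, ← pow_mul, ← pow_mul,
      ← pow_add]
    push_cast
    refine pow_le_pow_right₀ (by norm_num) ?_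
    have : 3 * LL j = 4 * (3 * ((j + 1) * (8 * 2 ^ (31 * (j + 1))))) := by rw [LL]; ring
    omega
  have c := (div_le_iff₀ (by positivity)).2 (show _ ≤ 1 / 4 * ((2 ^ (LL j - 1) : ℕ) : ℝ) from
    a.trans (by linarith))
  rw [ts, show (1 + 1) * (2 : ℝ) ^ (31 * (j + 1)) / (8 * 2 ^ (31 * (j + 1)) : ℕ) = 1 / 4 by
    push_cast; field_simp; norm_num]
  linarith

lemma lim1 : Tendsto (fun j => Fintype.card (GG j)) atTop atTop := by
  refine tendsto_atTop_mono (fun j => ?_) tendsto_id
  have := Nat.two_pow_pos (31 * (j + 1))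
  rw [cG]
  exact le_trans (by dsimp; unfold LL; nlinarith) Nat.lt_two_pow_self.le

lemma lim2 : Tendsto (fun j => Real.log (kk j)) atTop atTop := by
  refine tendsto_atTop_mono (fun j => ?_) tendsto_natCast_atTop_atTop
  rw [lk]
  nlinarith [Real.log_two_gt_d9, (Nat.cast_nonneg j : (0 : ℝ) ≤ j)]

lemma lim3 : Tendsto (fun j => Real.log (kk j) / Real.log (Fintype.card (GG j))) atTop (𝓝 0) := by
  refine squeeze_zero (fun j => ?_) (fun j => ?_) tendsto_one_div_add_atTop_nhds_zero_nat
  · rw [lG, lk]; positivity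
  · have : 0 < Real.log (kk j) := by rw [lk]; positivity
    rw [lG, mul_comm, ← div_div, div_self this.ne']
    refine one_div_le_one_div_of_le (by positivity) ?_
    exact_mod_cast le_trans (by omega) (Nat.lt_two_pow_self (n := 31 * (j + 1))).le

lemma lim4 : Tendsto (fun j => (kk j : ℝ) / Real.log (Fintype.card (GG j))) atTop atTop := by
  refine tendsto_atTop_mono (fun j => ?_) ((tendsto_natCast_atTop_atTop.const_mul_atTop
    (by norm_num : (0 : ℝ) < 1 / 128)))
  have a : 0 < Real.log (kk j) := by rw [lk]; positivity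
  rw [lG, le_div_iff₀ (by positivity), lk, kk, show 32 * (j + 1) = j + 1 + 31 * (j + 1) by ring]
  push_cast
  rw [pow_add (2 : ℝ) (j + 1)]
  have b : ((j + 1 : ℝ) ^ 2 / 5) ≤ 2 ^ (j + 1) := by
    have := Real.pow_div_factorial_le_exp ((j + 1 : ℕ) * Real.log 2) (by positivity) 2
    rw [Real.exp_nat_mul, Real.exp_log (by norm_num), mul_pow] at this
    norm_num [Nat.factorial] at this
    nlinarith [mul_le_mul_of_nonneg_left (show 2 / 5 ≤ Real.log 2 ^ 2 by nlinarith [Real.log_two_gt_d9])
      (sq_nonneg (j + 1 : ℝ))]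
  have c : (0 : ℝ) < 2 ^ (31 * (j + 1)) := by positivity
  have e : (j : ℝ) * ((j + 1) * Real.log 2) / 4 ≤ 2 ^ (j + 1) := by
    have : (0 : ℝ) ≤ j := Nat.cast_nonneg j
    nlinarith [mul_le_mul_of_nonneg_left (show Real.log 2 ≤ 4 / 5 by linarith [Real.log_two_lt_d9])
      (show 0 ≤ (j : ℝ) * (j + 1) by positivity)]
  nlinarith [mul_le_mul_of_nonneg_right e c.le]

/-- Groups and numbers of generators in the required regime for which, whatever the generators,
the walk is far from uniform at twice the conjectured cutoff time. -/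
theorem result : ∃ (G : ℕ → Type) (_ : ∀ n, Group (G n)) (_ : ∀ n, Fintype (G n))
    (_ : ∀ n, DecidableEq (G n)) (k : ℕ → ℕ),
    Tendsto (fun n => Fintype.card (G n)) atTop atTop ∧
    Tendsto (fun n => Real.log (k n)) atTop atTop ∧
    Tendsto (fun n => Real.log (k n) / Real.log (Fintype.card (G n))) atTop (𝓝 0) ∧
    Tendsto (fun n => (k n : ℝ) / Real.log (Fintype.card (G n))) atTop atTop ∧
    ∀ n (Z : Fin (k n) → G n), 1 / 2 ≤ d Z ((1 + 1) * tstar (G n) (k n)) :=
  ⟨GG, inferInstance, inferInstance, inferInstance, kk, lim1, lim2, lim3, lim4, main⟩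

end

end Pool.Agent.Results.MP_d87a8f_pr.Dihedral
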